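import Pool.Agent.helper16.LW.Spec

/-! lw: T3B: the bound of the trace `tr O³`. -/

set_option autoImplicit false

open Complex MeasureTheory

namespace Pool.Agent.LW

open Pool.Agent.ZD Pool.Agent.helper84.DM Pool.Agent.helper78.ED Pool.Agent.DH

theorem T3B_prod (B₁ B₂ B₃ c₁ c₂ c₃ : ℂ) (R η : ℝ) (hB₂ : ‖B₂‖ ≤ R)
    (hB₃ : ‖B₃‖ ≤ R) (hc₁ : ‖c₁‖ ≤ R) (hc₂ : ‖c₂‖ ≤ R) (h₁ : ‖B₁ - c₁‖ ≤ η)
    (h₂ : ‖B₂ - c₂‖ ≤ η) (h₃ : ‖B₃ - c₃‖ ≤ η) :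
    ‖B₁ * B₂ * B₃ - c₁ * c₂ * c₃‖ ≤ 3 * R ^ 2 * η := by
  have hR : 0 ≤ R := (norm_nonneg _).trans hB₂
  have hη : 0 ≤ η := (norm_nonneg _).trans h₁
  have e : B₁ * B₂ * B₃ - c₁ * c₂ * c₃ =
      (B₁ - c₁) * B₂ * B₃ + c₁ * (B₂ - c₂) * B₃ + c₁ * c₂ * (B₃ - c₃) := by ring
  rw [e]
  have t1 : ‖(B₁ - c₁) * B₂ * B₃‖ ≤ η * R * R := by
    rw [norm_mul, norm_mul]
    exact mul_le_mul (mul_le_mul h₁ hB₂ (norm_nonneg _) hη) hB₃ (norm_nonneg _)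
      (mul_nonneg hη hR)
  have t2 : ‖c₁ * (B₂ - c₂) * B₃‖ ≤ R * η * R := by
    rw [norm_mul, norm_mul]
    exact mul_le_mul (mul_le_mul hc₁ h₂ (norm_nonneg _) hR) hB₃ (norm_nonneg _)
      (mul_nonneg hR hη)
  have t3 : ‖c₁ * c₂ * (B₃ - c₃)‖ ≤ R * R * η := by
    rw [norm_mul, norm_mul]
    exact mul_le_mul (mul_le_mul hc₁ hc₂ (norm_nonneg _) hR) h₃ (norm_nonneg _)
      (mul_nonneg hR hR)
  calc ‖(B₁ - c₁) * B₂ * B₃ + c₁ * (B₂ - c₂) * B₃ + c₁ * c₂ * (B₃ - c₃)‖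
      ≤ ‖(B₁ - c₁) * B₂ * B₃‖ + ‖c₁ * (B₂ - c₂) * B₃‖ + ‖c₁ * c₂ * (B₃ - c₃)‖ :=
        norm_add₃_le
    _ ≤ η * R * R + R * η * R + R * R * η := by linarith
    _ = 3 * R ^ 2 * η := by ring

theorem T3B_sum (W : Finset ℤ) (F : ℤ → ℤ → ℤ → ℂ) (E : ℝ)
    (h : ∀ t₁ ∈ W, ∀ t₂ ∈ W, ∀ t₃ ∈ W, ‖F t₁ t₂ t₃‖ ≤ E) :
    ‖∑ t₁ ∈ W, ∑ t₂ ∈ W, ∑ t₃ ∈ W, F t₁ t₂ t₃‖ ≤ (W.card : ℝ) ^ 3 * E := by
  have h1 : ∀ t₁ ∈ W, ∀ t₂ ∈ W, ‖∑ t₃ ∈ W, F t₁ t₂ t₃‖ ≤ (W.card : ℝ) * E := by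
    intro t₁ h₁ t₂ h₂
    refine (norm_sum_le_of_le _ (h t₁ h₁ t₂ h₂)).trans ?_
    rw [Finset.sum_const, nsmul_eq_mul]
  have h2 : ∀ t₁ ∈ W, ‖∑ t₂ ∈ W, ∑ t₃ ∈ W, F t₁ t₂ t₃‖ ≤
      (W.card : ℝ) * ((W.card : ℝ) * E) := by
    intro t₁ h₁
    refine (norm_sum_le_of_le _ (h1 t₁ h₁)).trans ?_
    rw [Finset.sum_const, nsmul_eq_mul]
  refine (norm_sum_le_of_le _ h2).trans ?_
  rw [Finset.sum_const, nsmul_eq_mul]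
  apply le_of_eq
  ring

theorem T3B_exp (u : ℝ) : ‖Complex.exp (-((u : ℂ) * I))‖ = 1 := by
  rw [← neg_mul, ← Complex.ofReal_neg, Complex.norm_exp_ofReal_mul_I]

theorem T3B_phase (X a b c : ℝ) :
    Complex.exp (-((((a - b) * Real.log X : ℝ) : ℂ) * I)) *
      Complex.exp (-((((b - c) * Real.log X : ℝ) : ℂ) * I)) *
      Complex.exp (-((((c - a) * Real.log X : ℝ) : ℂ) * I)) = 1 := by
  rw [← Complex.exp_add, ← Complex.exp_add, ← Complex.exp_zero]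
  congr 1
  push_cast
  ring

theorem T3B_card (J : ℕ) : ((IJ J).card : ℝ) ≤ 2 * J := by
  unfold IJ
  rw [Int.card_Ioo]
  have h : ((J : ℤ) - (-(J : ℤ)) - 1).toNat ≤ 2 * J := by omega
  exact_mod_cast h

theorem T3B (hA2W : A2W_stmt) (hPB1 : PB1_stmt) (hBSB : BSB_stmt) : T3B_stmt := by
  intro ε hε
  obtain ⟨δ, hδ⟩ : ∃ δ : ℝ, δ = min 1 (ε / 8) := ⟨_, rfl⟩
  have hδ0 : 0 < δ := by rw [hδ]; exact lt_min one_pos (by positivity)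
  have hδ1 : δ ≤ 1 := by rw [hδ]; exact min_le_left _ _
  have hδε : δ ≤ ε / 8 := by rw [hδ]; exact min_le_right _ _
  obtain ⟨C₁, hC₁, hal⟩ := hA2W (ε / 8) (by positivity)
  obtain ⟨C₂, hC₂, hpb⟩ := hPB1 20 δ (by norm_num) hδ0
  obtain ⟨-, hb2, -⟩ := hBSB
  set K : ℝ := 24 * (512 + C₂) ^ 2 * C₂ with hK
  have hK0 : 0 < K := by rw [hK]; positivity
  set K₁ : ℝ := C₁ * (4 : ℝ) ^ (ε / 8) * 16 with hK₁
  have hK₁0 : 0 < K₁ := by rw [hK₁]; positivity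
  refine ⟨K₁ + K, by positivity, ?_⟩
  intro J X F hJ hX hXJ hF
  have hJ1 : (1 : ℝ) ≤ J := by exact_mod_cast hJ
  have hJ0 : (0 : ℝ) < J := by linarith
  have hX0 : 0 < X := by linarith
  have h2J : (1 : ℝ) ≤ 2 * J := by linarith
  -- the parameter `M`
  set Y : ℝ := (2 * (J : ℝ)) ^ (1 + δ) / X with hY
  have hY1 : 1 ≤ Y := by
    rw [hY, le_div_iff₀ hX0, one_mul]
    refine hXJ.trans ?_
    calc 2 * (J : ℝ) = (2 * (J : ℝ)) ^ (1 : ℝ) := (Real.rpow_one _).symm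
      _ ≤ (2 * (J : ℝ)) ^ (1 + δ) := Real.rpow_le_rpow_of_exponent_le h2J (by linarith)
  obtain ⟨M, hMdef⟩ : ∃ M : ℕ, M = ⌊Y⌋₊ := ⟨_, rfl⟩
  have hM1 : 1 ≤ M := by
    rw [hMdef]
    exact Nat.le_floor (by simpa using hY1)
  have hMY : (M : ℝ) ≤ Y := by
    rw [hMdef]
    exact Nat.floor_le (by linarith)
  have hYM : Y ≤ (M : ℝ) + 1 := by
    rw [hMdef]
    exact (Nat.lt_floor_add_one Y).le
  have hXM : X * M ≤ (2 * (J : ℝ)) ^ (1 + δ) := by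
    calc X * M ≤ X * Y := mul_le_mul_of_nonneg_left hMY hX0.le
      _ = (2 * (J : ℝ)) ^ (1 + δ) := by
        rw [hY]
        field_simp
  have hXM4 : X * M ≤ 4 * (J : ℝ) ^ (1 + δ) := by
    refine hXM.trans ?_
    rw [Real.mul_rpow (by norm_num) hJ0.le]
    refine mul_le_mul_of_nonneg_right ?_ (Real.rpow_nonneg hJ0.le _)
    calc (2 : ℝ) ^ (1 + δ) ≤ (2 : ℝ) ^ (2 : ℝ) :=
          Real.rpow_le_rpow_of_exponent_le (by norm_num) (by linarith)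
      _ = 4 := by norm_num
  have hJδ2 : (J : ℝ) ^ (1 + δ) ≤ (J : ℝ) ^ 2 := by
    rw [← Real.rpow_natCast (J : ℝ) 2]
    apply Real.rpow_le_rpow_of_exponent_le hJ1
    push_cast
    linarith
  have hXM2 : X * M ≤ 4 * (J : ℝ) ^ 2 := by linarith
  have hJM : (J : ℝ) ^ (1 + δ) ≤ X * ((M : ℝ) + 1) := by
    calc (J : ℝ) ^ (1 + δ) ≤ (2 * (J : ℝ)) ^ (1 + δ) :=
          Real.rpow_le_rpow hJ0.le (by linarith) (by linarith)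
      _ = X * Y := by
        rw [hY]
        field_simp
      _ ≤ X * ((M : ℝ) + 1) := mul_le_mul_of_nonneg_left hYM hX0.le
  -- the error bound
  set τ : ℝ := (J : ℝ) ^ (-(20 : ℝ)) with hτ
  have hτ0 : 0 ≤ τ := Real.rpow_nonneg hJ0.le _
  have eτ : τ = ((J : ℝ) ^ 20)⁻¹ := by
    rw [hτ, Real.rpow_neg hJ0.le]
    congr 1
    exact_mod_cast Real.rpow_natCast (J : ℝ) 20
  have hτ1 : (J : ℝ) ^ 13 * τ ≤ 1 := by
    rw [eτ, ← div_eq_mul_inv, div_le_one (by positivity)]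
    exact pow_le_pow_right₀ hJ1 (by norm_num)
  have hτ2 : τ ≤ 1 := by
    rw [eτ]
    exact inv_le_one_of_one_le₀ (one_le_pow₀ hJ1)
  have hIJ : ∀ j ∈ IJ J, |(j : ℝ)| ≤ J := by
    intro j hj
    unfold IJ at hj
    rw [Finset.mem_Ioo] at hj
    rw [abs_le]
    constructor
    · exact_mod_cast hj.1.le
    · exact_mod_cast hj.2.le
  have hdist : ∀ j ∈ IJ J, ∀ k ∈ IJ J, |(j : ℝ) - k| ≤ 2 * J := by
    intro j hj k hk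
    have h1 := hIJ j hj
    have h2 := hIJ k hk
    have h3 := abs_sub (j : ℝ) (k : ℝ)
    linarith
  have hJ2 : (1 : ℝ) ≤ (J : ℝ) ^ 2 := one_le_pow₀ hJ1
  have hBs : ∀ u : ℝ, ‖Bs X M u‖ ≤ (512 + C₂) * (J : ℝ) ^ 2 := by
    intro u
    have h1 := hb2 X M u hX0.le
    have h2 : 128 * X * M = 128 * (X * M) := by ring
    have h3 : 0 ≤ C₂ * (J : ℝ) ^ 2 := by positivity
    nlinarith
  have hBs' : ∀ u : ℝ, ‖Complex.exp (-(((u * Real.log X : ℝ) : ℂ) * I)) * Bs X M u‖ ≤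
      (512 + C₂) * (J : ℝ) ^ 2 := by
    intro u
    rw [norm_mul, T3B_exp, one_mul]
    exact hBs u
  have hpb' : ∀ j ∈ IJ J, ∀ k ∈ IJ J,
      ‖B1 X ((j : ℝ) - k) - Complex.exp (-(((((j : ℝ) - k) * Real.log X : ℝ) : ℂ) * I)) *
        Bs X M ((j : ℝ) - k)‖ ≤ C₂ * τ :=
    fun j hj k hk => hpb J M X _ hJ hX (hdist j hj k hk) hJM
  have hB1 : ∀ j ∈ IJ J, ∀ k ∈ IJ J, ‖B1 X ((j : ℝ) - k)‖ ≤ (512 + C₂) * (J : ℝ) ^ 2 := by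
    intro j hj k hk
    have h1 := hpb' j hj k hk
    have h2 : ‖Complex.exp (-(((((j : ℝ) - k) * Real.log X : ℝ) : ℂ) * I)) *
        Bs X M ((j : ℝ) - k)‖ ≤ 512 * (J : ℝ) ^ 2 := by
      rw [norm_mul, T3B_exp, one_mul]
      have h1 := hb2 X M ((j : ℝ) - k) hX0.le
      have h2 : 128 * X * M = 128 * (X * M) := by ring
      nlinarith
    have h3 : B1 X ((j : ℝ) - k) = (B1 X ((j : ℝ) - k) -
        Complex.exp (-(((((j : ℝ) - k) * Real.log X : ℝ) : ℂ) * I)) * Bs X M ((j : ℝ) - k)) +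
        Complex.exp (-(((((j : ℝ) - k) * Real.log X : ℝ) : ℂ) * I)) * Bs X M ((j : ℝ) - k) := by
      ring
    have h4 : C₂ * τ ≤ C₂ * (J : ℝ) ^ 2 := mul_le_mul_of_nonneg_left (by linarith) hC₂.le
    rw [h3]
    refine (norm_add_le _ _).trans ?_
    linarith
  have hF0 : ∀ j ∈ IJ J, ∀ k ∈ IJ J, ∀ l ∈ IJ J, ‖((F j * F k * F l : ℝ) : ℂ)‖ ≤ (J : ℝ) ^ 6 := by
    intro j hj k hk l hl
    obtain ⟨a1, a2⟩ := hF j hj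
    obtain ⟨b1, b2⟩ := hF k hk
    obtain ⟨c1, c2⟩ := hF l hl
    rw [Complex.norm_real, Real.norm_eq_abs, abs_of_nonneg (by positivity)]
    calc F j * F k * F l ≤ (J : ℝ) ^ 2 * (J : ℝ) ^ 2 * (J : ℝ) ^ 2 :=
          mul_le_mul (mul_le_mul a2 b2 b1 (by positivity)) c2 c1 (by positivity)
      _ = (J : ℝ) ^ 6 := by ring
  have htr : ∀ j ∈ IJ J, ∀ k ∈ IJ J, ∀ l ∈ IJ J,
      ‖((F j * F k * F l : ℝ) : ℂ) * (B1 X ((j : ℝ) - k) * B1 X ((k : ℝ) - l) * B1 X ((l : ℝ) - j)) -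
        ((F j * F k * F l : ℝ) : ℂ) *
          (Bs X M ((j : ℝ) - k) * Bs X M ((k : ℝ) - l) * Bs X M ((l : ℝ) - j))‖ ≤
        (J : ℝ) ^ 6 * (3 * ((512 + C₂) * (J : ℝ) ^ 2) ^ 2 * (C₂ * τ)) := by
    intro j hj k hk l hl
    rw [← mul_sub, norm_mul]
    refine mul_le_mul (hF0 j hj k hk l hl) ?_ (norm_nonneg _) (by positivity)
    have hprod : Bs X M ((j : ℝ) - k) * Bs X M ((k : ℝ) - l) * Bs X M ((l : ℝ) - j) =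
        (Complex.exp (-(((((j : ℝ) - k) * Real.log X : ℝ) : ℂ) * I)) * Bs X M ((j : ℝ) - k)) *
        (Complex.exp (-(((((k : ℝ) - l) * Real.log X : ℝ) : ℂ) * I)) * Bs X M ((k : ℝ) - l)) *
        (Complex.exp (-(((((l : ℝ) - j) * Real.log X : ℝ) : ℂ) * I)) * Bs X M ((l : ℝ) - j)) := by
      calc Bs X M ((j : ℝ) - k) * Bs X M ((k : ℝ) - l) * Bs X M ((l : ℝ) - j)
          = 1 * (Bs X M ((j : ℝ) - k) * Bs X M ((k : ℝ) - l) * Bs X M ((l : ℝ) - j)) :=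
            (one_mul _).symm
        _ = _ := by rw [← T3B_phase X j k l]; ring
    rw [hprod]
    exact T3B_prod _ _ _ _ _ _ _ _ (hB1 k hk l hl) (hB1 l hl j hj) (hBs' _) (hBs' _)
      (hpb' j hj k hk) (hpb' k hk l hl) (hpb' l hl j hj)
  have hdiff : ‖T3 J F X - ∑ j ∈ IJ J, ∑ k ∈ IJ J, ∑ l ∈ IJ J, ((F j * F k * F l : ℝ) : ℂ) *
      (Bs X M ((j : ℝ) - k) * Bs X M ((k : ℝ) - l) * Bs X M ((l : ℝ) - j))‖ ≤ K := by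
    have e1 : T3 J F X - ∑ j ∈ IJ J, ∑ k ∈ IJ J, ∑ l ∈ IJ J, ((F j * F k * F l : ℝ) : ℂ) *
        (Bs X M ((j : ℝ) - k) * Bs X M ((k : ℝ) - l) * Bs X M ((l : ℝ) - j)) =
        ∑ j ∈ IJ J, ∑ k ∈ IJ J, ∑ l ∈ IJ J,
          (((F j * F k * F l : ℝ) : ℂ) *
            (B1 X ((j : ℝ) - k) * B1 X ((k : ℝ) - l) * B1 X ((l : ℝ) - j)) -
          ((F j * F k * F l : ℝ) : ℂ) *
            (Bs X M ((j : ℝ) - k) * Bs X M ((k : ℝ) - l) * Bs X M ((l : ℝ) - j))) := by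
      simp only [T3, Finset.sum_sub_distrib]
    rw [e1]
    refine (T3B_sum (IJ J) _ _ htr).trans ?_
    have hcard := T3B_card J
    have e2 : ((IJ J).card : ℝ) ^ 3 ≤ (2 * (J : ℝ)) ^ 3 :=
      pow_le_pow_left₀ (Nat.cast_nonneg _) hcard 3
    calc ((IJ J).card : ℝ) ^ 3 * ((J : ℝ) ^ 6 * (3 * ((512 + C₂) * (J : ℝ) ^ 2) ^ 2 * (C₂ * τ)))
        ≤ (2 * (J : ℝ)) ^ 3 * ((J : ℝ) ^ 6 * (3 * ((512 + C₂) * (J : ℝ) ^ 2) ^ 2 * (C₂ * τ))) :=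
          mul_le_mul_of_nonneg_right e2 (by positivity)
      _ = K * ((J : ℝ) ^ 13 * τ) := by rw [hK]; ring
      _ ≤ K * 1 := mul_le_mul_of_nonneg_left hτ1 hK0.le
      _ = K := mul_one K
  have hmain := hal J F X M hX hM1
  obtain ⟨S, hS⟩ : ∃ S : ℝ, S = (∑ j ∈ IJ J, F j ^ 2) ^ (3 / 2 : ℝ) := ⟨_, rfl⟩
  obtain ⟨Q, hQ⟩ : ∃ Q : ℝ, Q = ∫ x in (-5 : ℝ)..5, ‖rF J F x‖ ^ 3 := ⟨_, rfl⟩
  rw [← hS, ← hQ] at hmain ⊢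
  have hS0 : 0 ≤ S := by
    rw [hS]
    exact Real.rpow_nonneg (Finset.sum_nonneg fun j _ => sq_nonneg _) _
  have hQ0 : 0 ≤ Q := by
    rw [hQ]
    apply intervalIntegral.integral_nonneg (by norm_num)
    intro x _
    positivity
  have hMXn : 0 ≤ (M : ℝ) * X := by positivity
  have p1 : ((M : ℝ) * X) ^ (ε / 8) ≤ (4 : ℝ) ^ (ε / 8) * (J : ℝ) ^ (ε / 4) := by
    calc ((M : ℝ) * X) ^ (ε / 8) ≤ (4 * (J : ℝ) ^ 2) ^ (ε / 8) := by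
          apply Real.rpow_le_rpow hMXn _ (by positivity)
          rw [mul_comm]
          exact hXM2
      _ = (4 : ℝ) ^ (ε / 8) * (J : ℝ) ^ (ε / 4) := by
          rw [Real.mul_rpow (by norm_num) (by positivity), ← Real.rpow_natCast (J : ℝ) 2,
            ← Real.rpow_mul hJ0.le]
          congr 2
          push_cast
          ring
  have hJJ : (J : ℝ) ^ (1 + δ) = J * (J : ℝ) ^ δ := by rw [Real.rpow_add hJ0, Real.rpow_one]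
  have hJδ : 1 ≤ (J : ℝ) ^ δ := Real.one_le_rpow hJ1 hδ0.le
  have hJδsq : (J : ℝ) ^ (2 * δ) = (J : ℝ) ^ δ * (J : ℝ) ^ δ := by
    rw [← Real.rpow_add hJ0]
    congr 1
    ring
  have hJδ2' : (J : ℝ) ^ δ ≤ (J : ℝ) ^ (2 * δ) :=
    Real.rpow_le_rpow_of_exponent_le hJ1 (by linarith)
  have p2 : (X * M) ^ 2 ≤ 16 * (J : ℝ) ^ (2 * δ) * (J : ℝ) ^ 2 := by
    calc (X * M) ^ 2 ≤ (4 * (J : ℝ) ^ (1 + δ)) ^ 2 := pow_le_pow_left₀ (by positivity) hXM4 2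
      _ = 16 * (J : ℝ) ^ (2 * δ) * (J : ℝ) ^ 2 := by
        rw [hJJ, hJδsq]
        ring
  have p3 : X * M ≤ 16 * (J : ℝ) ^ (2 * δ) * J := by
    calc X * M ≤ 4 * (J : ℝ) ^ (1 + δ) := hXM4
      _ = 4 * (J : ℝ) ^ δ * J := by rw [hJJ]; ring
      _ ≤ 16 * (J : ℝ) ^ (2 * δ) * J := by
        refine mul_le_mul_of_nonneg_right ?_ hJ0.le
        have : 0 ≤ (J : ℝ) ^ (2 * δ) := by positivity
        linarith
  have hfin : ‖∑ j ∈ IJ J, ∑ k ∈ IJ J, ∑ l ∈ IJ J, ((F j * F k * F l : ℝ) : ℂ) *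
      (Bs X M ((j : ℝ) - k) * Bs X M ((k : ℝ) - l) * Bs X M ((l : ℝ) - j))‖ ≤
      K₁ * (J : ℝ) ^ ε * ((J : ℝ) ^ 2 * S + X * J * Q) := by
    refine hmain.trans ?_
    have q1 : X ^ 2 * ((M : ℝ) ^ 2 * S + M * Q) ≤
        16 * (J : ℝ) ^ (2 * δ) * ((J : ℝ) ^ 2 * S + X * J * Q) := by
      have r1 : (X * M) ^ 2 * S ≤ 16 * (J : ℝ) ^ (2 * δ) * (J : ℝ) ^ 2 * S :=
        mul_le_mul_of_nonneg_right p2 hS0
      have r2 : X * (X * M) * Q ≤ X * (16 * (J : ℝ) ^ (2 * δ) * J) * Q :=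
        mul_le_mul_of_nonneg_right (mul_le_mul_of_nonneg_left p3 hX0.le) hQ0
      calc X ^ 2 * ((M : ℝ) ^ 2 * S + M * Q)
          = (X * M) ^ 2 * S + X * (X * M) * Q := by ring
        _ ≤ 16 * (J : ℝ) ^ (2 * δ) * (J : ℝ) ^ 2 * S + X * (16 * (J : ℝ) ^ (2 * δ) * J) * Q :=
            add_le_add r1 r2
        _ = _ := by ring
    have q0 : 0 ≤ X ^ 2 * ((M : ℝ) ^ 2 * S + M * Q) := by positivity
    have q2 : (J : ℝ) ^ (ε / 4) * (J : ℝ) ^ (2 * δ) ≤ (J : ℝ) ^ ε := by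
      rw [← Real.rpow_add hJ0]
      exact Real.rpow_le_rpow_of_exponent_le hJ1 (by linarith)
    have q3 : 0 ≤ (J : ℝ) ^ 2 * S + X * J * Q := by positivity
    calc C₁ * ((M : ℝ) * X) ^ (ε / 8) * X ^ 2 * ((M : ℝ) ^ 2 * S + M * Q)
        = (C₁ * ((M : ℝ) * X) ^ (ε / 8)) * (X ^ 2 * ((M : ℝ) ^ 2 * S + M * Q)) := by ring
      _ ≤ (C₁ * ((4 : ℝ) ^ (ε / 8) * (J : ℝ) ^ (ε / 4))) *
          (16 * (J : ℝ) ^ (2 * δ) * ((J : ℝ) ^ 2 * S + X * J * Q)) :=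
          mul_le_mul (mul_le_mul_of_nonneg_left p1 hC₁.le) q1 q0 (by positivity)
      _ = K₁ * ((J : ℝ) ^ (ε / 4) * (J : ℝ) ^ (2 * δ)) * ((J : ℝ) ^ 2 * S + X * J * Q) := by
          rw [hK₁]; ring
      _ ≤ K₁ * (J : ℝ) ^ ε * ((J : ℝ) ^ 2 * S + X * J * Q) :=
          mul_le_mul_of_nonneg_right (mul_le_mul_of_nonneg_left q2 hK₁0.le) q3
  have h0 : 0 ≤ (J : ℝ) ^ ε * ((J : ℝ) ^ 2 * S + X * J * Q) := by positivity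
  calc ‖T3 J F X‖ = ‖(∑ j ∈ IJ J, ∑ k ∈ IJ J, ∑ l ∈ IJ J, ((F j * F k * F l : ℝ) : ℂ) *
        (Bs X M ((j : ℝ) - k) * Bs X M ((k : ℝ) - l) * Bs X M ((l : ℝ) - j))) +
        (T3 J F X - ∑ j ∈ IJ J, ∑ k ∈ IJ J, ∑ l ∈ IJ J, ((F j * F k * F l : ℝ) : ℂ) *
        (Bs X M ((j : ℝ) - k) * Bs X M ((k : ℝ) - l) * Bs X M ((l : ℝ) - j)))‖ := by
        rw [add_sub_cancel]
    _ ≤ K₁ * (J : ℝ) ^ ε * ((J : ℝ) ^ 2 * S + X * J * Q) + K :=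
        (norm_add_le _ _).trans (add_le_add hfin hdiff)
    _ ≤ (K₁ + K) * (J : ℝ) ^ ε * ((J : ℝ) ^ 2 * S + X * J * Q) + (K₁ + K) := by
        have h1 : (K₁ + K) * (J : ℝ) ^ ε * ((J : ℝ) ^ 2 * S + X * J * Q) =
            K₁ * (J : ℝ) ^ ε * ((J : ℝ) ^ 2 * S + X * J * Q) +
            K * ((J : ℝ) ^ ε * ((J : ℝ) ^ 2 * S + X * J * Q)) := by ring
        have h2 : 0 ≤ K * ((J : ℝ) ^ ε * ((J : ℝ) ^ 2 * S + X * J * Q)) :=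
          mul_nonneg hK0.le h0
        linarith

end Pool.Agent.LW
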